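import Mathlib

set_option autoImplicit false

namespace Pool.Agent.Results.MP_63c1c3_gt.CroMetrizable

open TopologicalSpace Set

universe u v

variable (X : Type u) (Y : Type v) [TopologicalSpace X] [TopologicalSpace Y]

/-- `f : X × Y → ℝ` is separately continuous. -/
def IsSepCont (f : X × Y → ℝ) : Prop :=
  (∀ x : X, Continuous fun y : Y => f (x, y)) ∧ ∀ y : Y, Continuous fun x : X => f (x, y)

variable {X Y} in
/-- The cross `cr{c} = (X × {b}) ∪ ({a} × Y)` of the point `c = (a, b)`. -/
def cross (c : X × Y) : Set (X × Y) :=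
  {p | p.2 = c.2} ∪ {p | p.1 = c.1}

/-- The family `Cro(P)`, `P = X × Y`: all sets `closure G ∩ C` where `C = cr{c}` for some `c ∈ P`
and `G` is open in `C`, that is `G = V ∩ C` with `V` open in `P`. -/
def CroFamily : Set (Set (X × Y)) :=
  {A | ∃ (c : X × Y) (V : Set (X × Y)), IsOpen V ∧ A = closure (V ∩ cross c) ∩ cross c}

/-- The set `S(X × Y)` of separately continuous real functions, to be given the cross-open
topology. -/
def Scro : Type (max u v) := {f : X × Y → ℝ // IsSepCont X Y f}

/-- The cross-open topology: generated by the sets `{s : s(A) ⊆ W}` with `A ∈ Cro(P)` and `W ⊆ ℝ`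
open. -/
instance : TopologicalSpace (Scro X Y) :=
  TopologicalSpace.generateFrom
    {U | ∃ A ∈ CroFamily X Y, ∃ W : Set ℝ, IsOpen W ∧ U = {s : Scro X Y | s.1 '' A ⊆ W}}

/-- Evaluation at a point is continuous for the cross-open topology. -/
lemma continuous_eval (p : X × Y) : Continuous fun s : Scro X Y => s.1 p := by
  rw [continuous_def]
  intro W hW
  rw [isOpen_iff_forall_mem_open]
  intro s hs
  obtain ⟨a, b⟩ := p
  -- on the cross, `s` coincides with a continuous function
  set h : X × Y → ℝ := fun q => s.1 (q.1, b) + s.1 (a, q.2) - s.1 (a, b) with hh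
  have hcont : Continuous h := by
    have h1 : Continuous fun q : X × Y => s.1 (q.1, b) := (s.2.2 b).comp continuous_fst
    have h2 : Continuous fun q : X × Y => s.1 (a, q.2) := (s.2.1 a).comp continuous_snd
    exact (h1.add h2).sub continuous_const
  have heq : ∀ q ∈ cross (a, b), s.1 q = h q := by
    rintro ⟨x, y⟩ (hq | hq)
    · simp only [mem_ofPred_eq] at hq
      subst hq
      simp [hh]
    · simp only [mem_ofPred_eq] at hq
      subst hq
      simp [hh]
  have hsW : s.1 (a, b) ∈ W := hs
  obtain ⟨W', hW', hsub⟩ := (closed_nhds_basis (s.1 (a, b))).mem_iff.1 (hW.mem_nhds hsW)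
  obtain ⟨O, hOW, hO, hmem⟩ := mem_nhds_iff.1 hW'.1
  have hpC : (a, b) ∈ cross (a, b) := Or.inl rfl
  have hpO : (a, b) ∈ h ⁻¹' O := by
    show h (a, b) ∈ O
    rw [← heq _ hpC]
    exact hmem
  refine ⟨{t : Scro X Y | t.1 '' (closure (h ⁻¹' O ∩ cross (a, b)) ∩ cross (a, b)) ⊆ W}, ?_, ?_, ?_⟩
  · intro t ht
    exact ht ⟨(a, b), ⟨subset_closure ⟨hpO, hpC⟩, hpC⟩, rfl⟩
  · apply TopologicalSpace.isOpen_generateFrom_of_mem
    exact ⟨_, ⟨(a, b), h ⁻¹' O, hO.preimage hcont, rfl⟩, W, hW, rfl⟩
  · rintro _ ⟨q, ⟨hq1, hq2⟩, rfl⟩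
    rw [heq q hq2]
    have h3 : q ∈ closure (h ⁻¹' O) := closure_mono inter_subset_left hq1
    have h4 : closure (h ⁻¹' O) ⊆ h ⁻¹' W' := by
      apply closure_minimal
      · intro z hz
        exact hOW hz
      · exact hW'.2.preimage hcont
    exact hsub (h4 h3)

/-- For all separable topological spaces `X`, `Y` (in particular for all Polish spaces), every
compact subspace of `S(X × Y)` with the cross-open topology is metrizable. -/
theorem result [SeparableSpace X] [SeparableSpace Y] (K : Set (Scro X Y)) (hK : IsCompact K) :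
    MetrizableSpace K := by
  obtain ⟨A, hAc, hAd⟩ := TopologicalSpace.exists_countable_dense X
  obtain ⟨B, hBc, hBd⟩ := TopologicalSpace.exists_countable_dense Y
  have _i1 : Countable A := hAc.to_subtype
  have _i2 : Countable B := hBc.to_subtype
  have _i3 : CompactSpace K := isCompact_iff_compactSpace.1 hK
  let F : K → (A × B → ℝ) := fun s q => s.1.1 (q.1.1, q.2.1)
  have hF : Continuous F := by
    apply continuous_pi
    intro q
    exact (continuous_eval X Y (q.1.1, q.2.1)).comp continuous_subtype_val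
  have hinj : Function.Injective F := by
    intro s t hst
    apply Subtype.ext
    apply Subtype.ext
    funext ⟨x, y⟩
    have h1 : ∀ b ∈ B, ∀ x : X, s.1.1 (x, b) = t.1.1 (x, b) := by
      intro b hb x
      have := Continuous.ext_on hAd (s.1.2.2 b) (t.1.2.2 b) (by
        intro a ha
        exact congrFun hst (⟨a, ha⟩, ⟨b, hb⟩))
      exact congrFun this x
    have h2 := Continuous.ext_on hBd (s.1.2.1 x) (t.1.2.1 x) (by
      intro b hb
      exact h1 b hb x)
    exact congrFun h2 y
  have _i : MetrizableSpace (A × B → ℝ) := metrizableSpace_of_t3_secondCountable _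
  exact (hF.isClosedEmbedding hinj).isEmbedding.metrizableSpace

end Pool.Agent.Results.MP_63c1c3_gt.CroMetrizable
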