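import Mathlib

set_option autoImplicit false

namespace Pool.Agent.Results.MP_63c1c3_gt.CruMetrizable

open TopologicalSpace Set
open scoped ENNReal

universe u v

variable (X : Type u) (Y : Type v) [TopologicalSpace X] [TopologicalSpace Y]

/-- `f : X × Y → ℝ` is separately continuous. -/
def IsSepCont (f : X × Y → ℝ) : Prop :=
  (∀ x : X, Continuous fun y : Y => f (x, y)) ∧ ∀ y : Y, Continuous fun x : X => f (x, y)

variable {X Y} in
/-- The cross `cr{c} = (X × {b}) ∪ ({a} × Y)` of the point `c = (a, b)`. -/
def cross (c : X × Y) : Set (X × Y) :=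
  {p | p.2 = c.2} ∪ {p | p.1 = c.1}

/-- The set `S(X × Y)` of separately continuous real functions, to be given the cross-uniform
topology. -/
def Scru : Type (max u v) := {f : X × Y → ℝ // IsSepCont X Y f}

variable {X Y} in
/-- The extended pseudometric `d_c(s, t) = sup_{p ∈ cr{c}} |s(p) - t(p)|`. -/
noncomputable def crossDist (c : X × Y) (s t : Scru X Y) : ℝ≥0∞ :=
  ⨆ p ∈ cross c, edist (s.1 p) (t.1 p)

/-- The cross-uniform topology: generated by the open balls of all the extended pseudometrics
`d_c`, `c ∈ X × Y`. -/
instance : TopologicalSpace (Scru X Y) :=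
  TopologicalSpace.generateFrom
    {U | ∃ (c : X × Y) (s : Scru X Y) (ε : ℝ≥0∞), 0 < ε ∧ U = {t : Scru X Y | crossDist c s t < ε}}

/-- Evaluation at a point is continuous for the cross-uniform topology. -/
lemma continuous_eval (p : X × Y) : Continuous fun s : Scru X Y => s.1 p := by
  rw [continuous_def]
  intro W hW
  rw [isOpen_iff_forall_mem_open]
  intro s hs
  have hsW : s.1 p ∈ W := hs
  obtain ⟨ε, hε, hball⟩ := EMetric.isOpen_iff.1 hW (s.1 p) hsW
  have hpC : p ∈ cross p := Or.inl rfl
  refine ⟨{t : Scru X Y | crossDist p s t < ε}, ?_, ?_, ?_⟩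
  · intro t ht
    apply hball
    rw [Metric.mem_eball, edist_comm]
    refine lt_of_le_of_lt ?_ ht
    exact le_iSup₂_of_le (f := fun q (_ : q ∈ cross p) => edist (s.1 q) (t.1 q)) p hpC le_rfl
  · apply TopologicalSpace.isOpen_generateFrom_of_mem
    exact ⟨p, s, ε, hε, rfl⟩
  · show crossDist p s s < ε
    unfold crossDist
    simpa using hε

/-- For all separable topological spaces `X`, `Y` (in particular for all Polish spaces), every
compact subspace of `S(X × Y)` with the cross-uniform topology is metrizable. -/
theorem result [SeparableSpace X] [SeparableSpace Y] (K : Set (Scru X Y)) (hK : IsCompact K) :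
    MetrizableSpace K := by
  obtain ⟨A, hAc, hAd⟩ := TopologicalSpace.exists_countable_dense X
  obtain ⟨B, hBc, hBd⟩ := TopologicalSpace.exists_countable_dense Y
  have _i1 : Countable A := hAc.to_subtype
  have _i2 : Countable B := hBc.to_subtype
  have _i3 : CompactSpace K := isCompact_iff_compactSpace.1 hK
  let F : K → (A × B → ℝ) := fun s q => s.1.1 (q.1.1, q.2.1)
  have hF : Continuous F := by
    apply continuous_pi
    intro q
    exact (continuous_eval X Y (q.1.1, q.2.1)).comp continuous_subtype_val
  have hinj : Function.Injective F := by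
    intro s t hst
    apply Subtype.ext
    apply Subtype.ext
    funext ⟨x, y⟩
    have h1 : ∀ b ∈ B, ∀ x : X, s.1.1 (x, b) = t.1.1 (x, b) := by
      intro b hb x
      have := Continuous.ext_on hAd (s.1.2.2 b) (t.1.2.2 b) (by
        intro a ha
        exact congrFun hst (⟨a, ha⟩, ⟨b, hb⟩))
      exact congrFun this x
    have h2 := Continuous.ext_on hBd (s.1.2.1 x) (t.1.2.1 x) (by
      intro b hb
      exact h1 b hb x)
    exact congrFun h2 y
  have _i : MetrizableSpace (A × B → ℝ) := metrizableSpace_of_t3_secondCountable _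
  exact (hF.isClosedEmbedding hinj).isEmbedding.metrizableSpace

end Pool.Agent.Results.MP_63c1c3_gt.CruMetrizable
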